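import Pool.Agent.helper52.IR.Spec

/-!
# MP_07c750 (quantum unique ergodicity), project IR, row YVO: length of the leaf set
-/

open scoped MatrixGroups ContDiff Topology UpperHalfPlane ComplexConjugate
open UpperHalfPlane MeasureTheory Filter Set

set_option autoImplicit false

namespace Pool.Agent.IR

open Pool.Agent.RS
open Pool.Agent.HV (FW)

noncomputable section

theorem YVO_proof (hCTF : CTF_stmt) (hGLC : RS.GLC_stmt) : YVO_stmt := by
  classical
  intro Γ hΓ
  obtain ⟨C, hC, H⟩ := hCTF Γ hΓ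
  obtain ⟨-, -, -, -, -, -, -, -, -, -, -, -, hlM, -, -, -, -, -, hla, -⟩ := hGLC
  refine ⟨C, hC, fun b k σ v0 A g hb hb1 hk => ?_⟩
  obtain ⟨g', hg'⟩ : ∃ g' : SL(2, ℝ), g' = g * lM v0 * aM σ := ⟨_, rfl⟩
  have key : ∀ v : ℝ, g * lM v * aM σ = g' * lM (Real.exp σ * (v - v0)) := by
    intro v
    have h1 : lM v = lM v0 * lM (v - v0) := by
      rw [← hlM]
      congr 1
      ring
    rw [h1, hg', ← mul_assoc, mul_assoc (g * lM v0), hla, mul_assoc, mul_assoc, mul_assoc]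
  obtain ⟨T, hTd⟩ : ∃ T : Finset ℤ, T = (Finset.Icc (⌊-(4 * Real.exp k)⌋ - 1) (⌈4 * Real.exp k⌉ + 1)).filter
      (fun m : ℤ => ∃ v : ℝ, |v| ≤ 4 ∧ m ≤ v * Real.exp k ∧ v * Real.exp k < m + 1 ∧ g' * lM v ∈ FW Γ A b (Real.exp (-k))) := ⟨_, rfl⟩
  have hT := H b k A g' T hb hb1 hk (fun m hm => by
    rw [hTd] at hm
    exact (Finset.mem_filter.1 hm).2)
  have hek : 0 < Real.exp k := Real.exp_pos k
  have heσ : 0 < Real.exp (-σ) := Real.exp_pos _
  have hek' : 0 < Real.exp (-k) := Real.exp_pos _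
  have hkk : Real.exp k * Real.exp (-k) = 1 := by rw [← Real.exp_add, add_neg_cancel, Real.exp_zero]
  have hσσ : Real.exp σ * Real.exp (-σ) = 1 := by rw [← Real.exp_add, add_neg_cancel, Real.exp_zero]
  have hsub : {v : ℝ | |v - v0| ≤ 4 * Real.exp (-σ) ∧ g * lM v * aM σ ∈ FW Γ A b (Real.exp (-k))} ⊆
      ⋃ m ∈ T, Ico (v0 + Real.exp (-σ) * (Real.exp (-k) * (m : ℤ))) (v0 + Real.exp (-σ) * (Real.exp (-k) * ((m : ℤ) + 1))) := by
    rintro v ⟨hv1, hv2⟩
    rw [key v] at hv2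
    obtain ⟨z, hz⟩ : ∃ z : ℝ, z = Real.exp σ * (v - v0) := ⟨_, rfl⟩
    have hz4 : |z| ≤ 4 := by
      rw [hz, abs_mul, abs_of_pos (Real.exp_pos σ)]
      calc Real.exp σ * |v - v0| ≤ Real.exp σ * (4 * Real.exp (-σ)) := mul_le_mul_of_nonneg_left hv1 (Real.exp_pos σ).le
        _ = 4 * (Real.exp σ * Real.exp (-σ)) := by ring
        _ = 4 := by rw [hσσ, mul_one]
    have hvz : v = v0 + Real.exp (-σ) * z := by
      rw [hz]
      have : Real.exp (-σ) * (Real.exp σ * (v - v0)) = (Real.exp σ * Real.exp (-σ)) * (v - v0) := by ring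
      rw [this, hσσ]
      ring
    rw [← hz] at hv2
    have hf1 := Int.floor_le (z * Real.exp k)
    have hf2 := Int.lt_floor_add_one (z * Real.exp k)
    have hzb := abs_le.1 hz4
    rw [Set.mem_iUnion₂]
    refine ⟨⌊z * Real.exp k⌋, ?_, ?_, ?_⟩
    · rw [hTd, Finset.mem_filter, Finset.mem_Icc]
      refine ⟨⟨?_, ?_⟩, z, hz4, hf1, hf2, hv2⟩
      · have h1 : -(4 * Real.exp k) ≤ z * Real.exp k := by nlinarith
        have := Int.floor_le_floor h1
        omega
      · have h1 : z * Real.exp k ≤ 4 * Real.exp k := by nlinarith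
        have h2 := Int.floor_le_floor h1
        have h3 := Int.floor_le_ceil (4 * Real.exp k)
        omega
    · rw [hvz]
      have h1 : Real.exp (-k) * (⌊z * Real.exp k⌋ : ℤ) ≤ z := by
        calc Real.exp (-k) * (⌊z * Real.exp k⌋ : ℤ) ≤ Real.exp (-k) * (z * Real.exp k) := mul_le_mul_of_nonneg_left hf1 hek'.le
          _ = z * (Real.exp k * Real.exp (-k)) := by ring
          _ = z := by rw [hkk, mul_one]
      have h2 := mul_le_mul_of_nonneg_left h1 heσ.le
      linarith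
    · rw [hvz]
      have h1 : z < Real.exp (-k) * ((⌊z * Real.exp k⌋ : ℤ) + 1) := by
        calc z = z * (Real.exp k * Real.exp (-k)) := by rw [hkk, mul_one]
          _ = Real.exp (-k) * (z * Real.exp k) := by ring
          _ < _ := mul_lt_mul_of_pos_left hf2 hek'
      have h2 := mul_lt_mul_of_pos_left h1 heσ
      linarith
  have hfin : volume (⋃ m ∈ T, Ico (v0 + Real.exp (-σ) * (Real.exp (-k) * ((m : ℤ) : ℝ))) (v0 + Real.exp (-σ) * (Real.exp (-k) * (((m : ℤ) : ℝ) + 1)))) ≠ ⊤ := by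
    refine ne_of_lt (lt_of_le_of_lt (measure_biUnion_finset_le _ _) ?_)
    rw [ENNReal.sum_lt_top]
    intro m _
    rw [Real.volume_Ico]
    exact ENNReal.ofReal_lt_top
  calc volume.real {v : ℝ | |v - v0| ≤ 4 * Real.exp (-σ) ∧ g * lM v * aM σ ∈ FW Γ A b (Real.exp (-k))}
      ≤ volume.real (⋃ m ∈ T, Ico (v0 + Real.exp (-σ) * (Real.exp (-k) * ((m : ℤ) : ℝ))) (v0 + Real.exp (-σ) * (Real.exp (-k) * (((m : ℤ) : ℝ) + 1)))) :=
        measureReal_mono hsub hfin
    _ ≤ ∑ m ∈ T, volume.real (Ico (v0 + Real.exp (-σ) * (Real.exp (-k) * ((m : ℤ) : ℝ))) (v0 + Real.exp (-σ) * (Real.exp (-k) * (((m : ℤ) : ℝ) + 1)))) :=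
        measureReal_biUnion_finset_le _ _
    _ = ∑ m ∈ T, Real.exp (-(σ + k)) := by
        refine Finset.sum_congr rfl fun m _ => ?_
        rw [Real.volume_real_Ico_of_le]
        · have : Real.exp (-(σ + k)) = Real.exp (-σ) * Real.exp (-k) := by
            rw [← Real.exp_add]
            congr 1
            ring
          rw [this]
          ring
        · have h1 : Real.exp (-k) * ((m : ℤ) : ℝ) ≤ Real.exp (-k) * (((m : ℤ) : ℝ) + 1) := mul_le_mul_of_nonneg_left (by linarith) hek'.le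
          have h2 := mul_le_mul_of_nonneg_left h1 heσ.le
          linarith
    _ = T.card * Real.exp (-(σ + k)) := by rw [Finset.sum_const, nsmul_eq_mul]
    _ ≤ C * A.card * Real.exp (-(σ + k)) := mul_le_mul_of_nonneg_right hT (Real.exp_pos _).le

end

end Pool.Agent.IR
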